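import Pool.Agent.W2helper10.TR.W
import Pool.Agent.W2helper17.TR.Runge
import Pool.Agent.W2helper17.TR.Orth
import Pool.Agent.W2helper89.TR.Ass
import Pool.Agent.W2helper26.TR.StepThm

set_option autoImplicit false

namespace Pool.Agent.Results.MP_27fa52_an.CounterexampleQ1

open MeasureTheory Set Filter Topology

/-- A weight with `α_+ = α_- = 0`: measurable, `≥ 1`, submultiplicative on `ℝ`,
`log φ(t) / t → 0` as `t → ±∞`. -/
def IsWeight (φ : ℝ → ℝ) : Prop :=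
  Measurable φ ∧ (∀ t, 1 ≤ φ t) ∧ (∀ t τ, φ (t + τ) ≤ φ t * φ τ) ∧
  Tendsto (fun t => Real.log (φ t) / t) atTop (𝓝 0) ∧
  Tendsto (fun t => Real.log (φ t) / t) atBot (𝓝 0)

/-- `f ∈ L^1_φ(ℝ_+)`: `f` is measurable, vanishes on `(-∞, 0)` and `∫_0^∞ |f| φ < ∞`. -/
def InL1 (φ : ℝ → ℝ) (f : ℝ → ℂ) : Prop :=
  AEStronglyMeasurable f volume ∧ (∀ t, t < 0 → f t = 0) ∧
  IntegrableOn (fun t => ‖f t‖ * φ t) (Set.Ioi 0)

/-- `g ∈ L^∞_φ(ℝ_+)`: `g` is measurable on `(0, ∞)` and `g / φ` is essentially bounded there. -/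
def InLinf (φ : ℝ → ℝ) (g : ℝ → ℂ) : Prop :=
  AEStronglyMeasurable g (volume.restrict (Set.Ioi 0)) ∧
  ∃ K : ℝ, ∀ᵐ t ∂(volume.restrict (Set.Ioi (0:ℝ))), ‖g t‖ ≤ K * φ t

/-- The transform `∫_0^∞ f(t) e^{-itz} dt`. -/
noncomputable def hat (f : ℝ → ℂ) (z : ℂ) : ℂ :=
  ∫ t in Set.Ioi (0:ℝ), f t * Complex.exp (-(Complex.I * (t:ℂ) * z))

/-- The two conditions on the transform of `f`: it has no zero in `Im z ≤ 0` and
`limsup_{y → -∞} log |hat f (iy)| / |y| = 0` (a limsup of extended real numbers). -/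
def TransformConditions (f : ℝ → ℂ) : Prop :=
  (∀ z : ℂ, z.im ≤ 0 → hat f z ≠ 0) ∧
  Filter.limsup (fun y : ℝ => ((Real.log ‖hat f (y * Complex.I)‖ / |y| : ℝ) : EReal)) atBot = 0

/-- **Q1 is false**: there are a weight `φ` with `α_+ = α_- = 0`, an `f ∈ L^1_φ(ℝ_+)` satisfying both
conditions on its transform, and a `g ∈ L^∞_φ(ℝ_+)` that is not a.e. zero on `(0, ∞)`, with
`∫_0^∞ f(t) g(t+τ) dt = 0` for all `τ > 0`. -/
theorem result : ∃ (φ : ℝ → ℝ) (f g : ℝ → ℂ),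
    IsWeight φ ∧ InL1 φ f ∧ TransformConditions f ∧ InLinf φ g ∧
    (¬ ∀ᵐ t ∂(volume.restrict (Set.Ioi (0:ℝ))), g t = 0) ∧
    (∀ τ : ℝ, 0 < τ → ∫ t in Set.Ioi (0:ℝ), f t * g (t + τ) = 0) := by
  obtain ⟨φ, f, h1, h2, h3, h4⟩ := Pool.Agent.W2helper10.TR.piece
    (Pool.Agent.W2helper89.TR.ass
      (Pool.Agent.W2helper26.TR.step Pool.Agent.W2helper17.TR.piece)
      Pool.Agent.W2helper17.TR.orth)
  obtain ⟨g, h5⟩ := not_forall.1 h4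
  obtain ⟨k1, h6⟩ := Classical.not_imp.1 h5
  obtain ⟨k2, k3⟩ := Classical.not_imp.1 h6
  exact ⟨φ, f, g, h1, h2, h3, k1, k3, k2⟩

end Pool.Agent.Results.MP_27fa52_an.CounterexampleQ1
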